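import Pool.Agent.H18.KC.Stmts

/-!
# Part C of the KLS proof, module PO2: next steps of the polarisation inequality
-/

set_option autoImplicit false

open Finset

set_option linter.unusedSectionVars false

namespace Pool.Agent.H18.KC

section

variable {α V : Type} [DecidableEq α] [NormedAddCommGroup V] [InnerProductSpace ℝ V]
  (ρ : Equiv.Perm α →* (V →ₗ[ℝ] V))

theorem PO2_iso (hρ : ∀ σ v, ‖ρ σ v‖ = ‖v‖) (σ : Equiv.Perm α) (v w : V) :
    inner ℝ (ρ σ v) (ρ σ w) = (inner ℝ v w : ℝ) :=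
  LinearIsometry.inner_map_map (⟨ρ σ, hρ σ⟩ : V →ₗᵢ[ℝ] V) v w

theorem PO2_mul (σ τ : Equiv.Perm α) (v : V) : ρ (σ * τ) v = ρ σ (ρ τ v) := by
  rw [map_mul]
  rfl

theorem PO2_swap_swap (a b : α) (v : V) : ρ (Equiv.swap a b) (ρ (Equiv.swap a b) v) = v := by
  rw [← PO2_mul, Equiv.swap_mul_self, map_one]
  rfl

theorem PO2_adj (hρ : ∀ σ v, ‖ρ σ v‖ = ‖v‖) (a b : α) (v w : V) :
    inner ℝ (ρ (Equiv.swap a b) v) w = (inner ℝ v (ρ (Equiv.swap a b) w) : ℝ) := by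
  conv_lhs => rw [← PO2_swap_swap ρ a b w]
  exact PO2_iso ρ hρ _ _ _

theorem PO2_conj (hρ : ∀ σ v, ‖ρ σ v‖ = ‖v‖) (σ : Equiv.Perm α) (a b : α) (v : V)
    (hv : ρ σ v = v) :
    inner ℝ (ρ (Equiv.swap (σ a) (σ b)) v) v = (inner ℝ (ρ (Equiv.swap a b) v) v : ℝ) := by
  have h1 : ρ (Equiv.swap (σ a) (σ b)) v = ρ σ (ρ (Equiv.swap a b) v) := by
    conv_lhs => rw [← hv]
    rw [← PO2_mul, ← PO2_mul, Equiv.mul_swap_eq_swap_mul]
  rw [h1]
  conv_lhs => rw [← hv]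
  conv_lhs => rw [hv]
  nth_rewrite 2 [← hv]
  exact PO2_iso ρ hρ _ _ _

/-- the correlation does not depend on the positions -/
theorem PO2_g (hρ : ∀ σ v, ‖ρ σ v‖ = ‖v‖) (x : ℕ → α) (p q : ℕ) (v : V)
    (hx : ∀ i j, i < p + q → j < p + q → x i = x j → i = j) (h1 : Inv ρ x 0 p v)
    (h2 : Inv ρ x p (p + q) v) {s r s' r' : ℕ} (hs : s < p) (hs' : s' < p) (hr : p ≤ r)
    (hrq : r < p + q) (hr' : p ≤ r') (hrq' : r' < p + q) :
    inner ℝ (ρ (Equiv.swap (x s) (x r)) v) v =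
      (inner ℝ (ρ (Equiv.swap (x s') (x r')) v) v : ℝ) := by
  have a1 : inner ℝ (ρ (Equiv.swap (x s) (x r)) v) v =
      (inner ℝ (ρ (Equiv.swap (x s') (x r)) v) v : ℝ) := by
    have h3 := PO2_conj ρ hρ (Equiv.swap (x s) (x s')) (x s') (x r) v
      (h1 s s' (Nat.zero_le _) hs (Nat.zero_le _) hs')
    rw [Equiv.swap_apply_right, Equiv.swap_apply_of_ne_of_ne] at h3
    · exact h3
    · intro h
      have := hx r s hrq (by omega) h
      omega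
    · intro h
      have := hx r s' hrq (by omega) h
      omega
  have a2 : inner ℝ (ρ (Equiv.swap (x s') (x r)) v) v =
      (inner ℝ (ρ (Equiv.swap (x s') (x r')) v) v : ℝ) := by
    have h3 := PO2_conj ρ hρ (Equiv.swap (x r) (x r')) (x s') (x r') v (h2 r r' hr hrq hr' hrq')
    rw [Equiv.swap_apply_right, Equiv.swap_apply_of_ne_of_ne] at h3
    · exact h3
    · intro h
      have := hx s' r (by omega) hrq h
      omega
    · intro h
      have := hx s' r' (by omega) hrq' h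
      omega
  rw [a1, a2]

/-- the norm of the raised vector -/
theorem PO2_norm (hρ : ∀ σ v, ‖ρ σ v‖ = ‖v‖) (x : ℕ → α) (p q : ℕ) (v : V)
    (hx : ∀ i j, i < p + q → j < p + q → x i = x j → i = j) (hp : 1 ≤ p) (hq : 1 ≤ q)
    (h1 : Inv ρ x 0 p v) (h2 : Inv ρ x p (p + q) v) (h3 : Inv ρ x 0 (p + 1) (Up ρ x p v)) :
    ‖Up ρ x p v‖ ^ 2 = ((p : ℝ) + 1) *
      (‖v‖ ^ 2 + p * inner ℝ (ρ (Equiv.swap (x (p - 1)) (x p)) v) v) := by
  have a1 : ‖Up ρ x p v‖ ^ 2 = ((p : ℝ) + 1) * inner ℝ (Up ρ x p v) v := by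
    rw [← real_inner_self_eq_norm_sq]
    conv_lhs => rw [show (inner ℝ (Up ρ x p v) (Up ρ x p v) : ℝ) =
      inner ℝ (Up ρ x p v) (v + ∑ i ∈ range p, ρ (Equiv.swap (x i) (x p)) v) from rfl]
    rw [inner_add_right, inner_sum]
    have a2 : ∀ i ∈ range p, (inner ℝ (Up ρ x p v) (ρ (Equiv.swap (x i) (x p)) v) : ℝ) =
        inner ℝ (Up ρ x p v) v := by
      intro i hi
      rw [mem_range] at hi
      rw [← PO2_adj ρ hρ, h3 i p (Nat.zero_le _) (by omega) (Nat.zero_le _) (by omega)]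
    rw [sum_congr rfl a2, sum_const, card_range, nsmul_eq_mul]
    ring
  have a3 : (inner ℝ (Up ρ x p v) v : ℝ) = ‖v‖ ^ 2 +
      p * inner ℝ (ρ (Equiv.swap (x (p - 1)) (x p)) v) v := by
    rw [show (inner ℝ (Up ρ x p v) v : ℝ) =
      inner ℝ (v + ∑ i ∈ range p, ρ (Equiv.swap (x i) (x p)) v) v from rfl]
    rw [inner_add_left, sum_inner, real_inner_self_eq_norm_sq]
    have a2 : ∀ i ∈ range p, (inner ℝ (ρ (Equiv.swap (x i) (x p)) v) v : ℝ) =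
        inner ℝ (ρ (Equiv.swap (x (p - 1)) (x p)) v) v := by
      intro i hi
      rw [mem_range] at hi
      exact PO2_g ρ hρ x p q v hx h1 h2 hi (by omega) le_rfl (by omega) le_rfl (by omega)
    rw [sum_congr rfl a2, sum_const, card_range, nsmul_eq_mul]
  rw [a1, a3]

/-- the norm of the lowered vector -/
theorem PO2_low (hρ : ∀ σ v, ‖ρ σ v‖ = ‖v‖) (x : ℕ → α) (p q : ℕ) (v : V)
    (hx : ∀ i j, i < p + q → j < p + q → x i = x j → i = j) (hp : 1 ≤ p) (hq : 1 ≤ q)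
    (h1 : Inv ρ x 0 p v) (h2 : Inv ρ x p (p + q) v) :
    ‖v + ∑ r ∈ Ico p (p + q), ρ (Equiv.swap (x (p - 1)) (x r)) v‖ ^ 2 = ((q : ℝ) + 1) *
      (‖v‖ ^ 2 + q * inner ℝ (ρ (Equiv.swap (x (p - 1)) (x p)) v) v) := by
  set g : ℝ := inner ℝ (ρ (Equiv.swap (x (p - 1)) (x p)) v) v with hg
  have hcard : ((Ico p (p + q)).card : ℝ) = q := by
    rw [Nat.card_Ico]
    congr 1
    omega
  have b1 : ∀ r ∈ Ico p (p + q),
      (inner ℝ v (ρ (Equiv.swap (x (p - 1)) (x r)) v) : ℝ) = g := by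
    intro r hr
    rw [mem_Ico] at hr
    rw [real_inner_comm]
    exact PO2_g ρ hρ x p q v hx h1 h2 (by omega) (by omega) hr.1 hr.2 le_rfl (by omega)
  have b2 : ∀ r ∈ Ico p (p + q), ∀ r' ∈ Ico p (p + q),
      (inner ℝ (ρ (Equiv.swap (x (p - 1)) (x r)) v) (ρ (Equiv.swap (x (p - 1)) (x r')) v) : ℝ) =
        g + if r = r' then ‖v‖ ^ 2 - g else 0 := by
    intro r hr r' hr'
    rw [mem_Ico] at hr hr'
    split_ifs with h
    · subst h
      rw [PO2_iso ρ hρ, real_inner_self_eq_norm_sq]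
      ring
    · rw [← PO2_adj ρ hρ, ← PO2_mul]
      have h5 : x r ≠ x r' := fun h' => h (hx r r' hr.2 hr'.2 h')
      have h6 : x (p - 1) ≠ x r' := by
        intro h'
        have := hx (p - 1) r' (by omega) hr'.2 h'
        omega
      have h4 : Equiv.swap (x (p - 1)) (x r') * Equiv.swap (x (p - 1)) (x r) =
          Equiv.swap (x (p - 1)) (x r) * Equiv.swap (x r) (x r') := by
        conv_rhs => rw [Equiv.mul_swap_eq_swap_mul, Equiv.swap_apply_right,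
          Equiv.swap_apply_of_ne_of_ne h6.symm h5.symm]
      rw [h4, PO2_mul, h2 r r' hr.1 hr.2 hr'.1 hr'.2, add_zero]
      rw [← b1 r (mem_Ico.2 hr), real_inner_comm]
  rw [← real_inner_self_eq_norm_sq, inner_add_left, inner_add_right, inner_add_right,
    real_inner_self_eq_norm_sq, inner_sum, sum_congr rfl b1, sum_inner]
  have b3 : (∑ i ∈ Ico p (p + q), inner ℝ (ρ (Equiv.swap (x (p - 1)) (x i)) v) v : ℝ) =
      ∑ i ∈ Ico p (p + q), g := by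
    refine sum_congr rfl fun r hr => ?_
    rw [real_inner_comm]
    exact b1 r hr
  have b4 : (inner ℝ (∑ i ∈ Ico p (p + q), ρ (Equiv.swap (x (p - 1)) (x i)) v)
      (∑ i ∈ Ico p (p + q), ρ (Equiv.swap (x (p - 1)) (x i)) v) : ℝ) =
      ∑ r ∈ Ico p (p + q), ∑ r' ∈ Ico p (p + q), (g + if r = r' then ‖v‖ ^ 2 - g else 0) := by
    rw [sum_inner]
    refine sum_congr rfl fun r hr => ?_
    rw [inner_sum]
    exact sum_congr rfl fun r' hr' => b2 r hr r' hr'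
  rw [b3, b4]
  have b5 : ∀ r ∈ Ico p (p + q), ∑ r' ∈ Ico p (p + q), (g + if r = r' then ‖v‖ ^ 2 - g else 0) =
      q * g + (‖v‖ ^ 2 - g) := by
    intro r hr
    rw [sum_add_distrib, sum_const, nsmul_eq_mul, hcard, sum_ite_eq, if_pos hr]
  rw [sum_congr rfl b5, sum_const, sum_const, nsmul_eq_mul, nsmul_eq_mul, hcard]
  ring

end

theorem PO2_thm (hUIN : UINStmt) : PO2Stmt := by
  intro α V _ _ _ ρ x p q u hρ hx hp hq h1 h2
  set v := Up ρ x p u with hv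
  obtain ⟨h3, h4⟩ := hUIN α V ρ x p (q + 1) u hx (by omega) h1 h2
  rw [← hv] at h3 h4
  have hx' : ∀ i j, i < (p + 1) + q → j < (p + 1) + q → x i = x j → i = j :=
    fun i j hi hj h => hx i j (by omega) (by omega) h
  have h4' : Inv ρ x (p + 1) ((p + 1) + q) v := by
    intro i j hi hi' hj hj'
    exact h4 i j hi (by omega) hj (by omega)
  obtain ⟨h5, -⟩ := hUIN α V ρ x (p + 1) q v hx' hq h3 h4'
  have e1 := PO2_norm ρ hρ x (p + 1) q v hx' (by omega) hq h3 h4' h5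
  have e2 := PO2_low ρ hρ x (p + 1) q v hx' (by omega) hq h3 h4'
  rw [Nat.add_sub_cancel] at e1 e2
  set g : ℝ := inner ℝ (ρ (Equiv.swap (x p) (x (p + 1))) v) v with hg
  set F := v + ∑ r ∈ Ico (p + 1) (p + 1 + q), ρ (Equiv.swap (x p) (x r)) v with hF
  -- the product of `F` and `u`
  have e3 : (inner ℝ F u : ℝ) = ((q : ℝ) + 1) * inner ℝ v u := by
    rw [hF, inner_add_left, sum_inner]
    have c1 : ∀ r ∈ Ico (p + 1) (p + 1 + q),
        (inner ℝ (ρ (Equiv.swap (x p) (x r)) v) u : ℝ) = inner ℝ v u := by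
      intro r hr
      rw [mem_Ico] at hr
      rw [PO2_adj ρ hρ, h2 p r le_rfl (by omega) (by omega) (by omega)]
    rw [sum_congr rfl c1, sum_const, Nat.card_Ico, nsmul_eq_mul]
    have c2 : p + 1 + q - (p + 1) = q := by omega
    rw [c2]
    ring
  have e4 : ‖v‖ ^ 2 = ((p : ℝ) + 1) * inner ℝ v u := by
    rw [← real_inner_self_eq_norm_sq]
    conv_lhs => rw [show (inner ℝ v v : ℝ) =
      inner ℝ v (u + ∑ i ∈ range p, ρ (Equiv.swap (x i) (x p)) u) from rfl]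
    rw [inner_add_right, inner_sum]
    have c1 : ∀ i ∈ range p, (inner ℝ v (ρ (Equiv.swap (x i) (x p)) u) : ℝ) = inner ℝ v u := by
      intro i hi
      rw [mem_range] at hi
      rw [← PO2_adj ρ hρ, h3 i p (Nat.zero_le _) (by omega) (Nat.zero_le _) (by omega)]
    rw [sum_congr rfl c1, sum_const, card_range, nsmul_eq_mul]
    ring
  have e5 : (inner ℝ F u : ℝ) ^ 2 ≤ ‖F‖ ^ 2 * ‖u‖ ^ 2 := by
    have := abs_real_inner_le_norm F u
    rw [← mul_pow, ← sq_abs]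
    exact pow_le_pow_left₀ (abs_nonneg _) this 2
  rw [e2, e3] at e5
  have hq0 : (0:ℝ) < (q : ℝ) + 1 := by positivity
  have hp0 : (0:ℝ) < (p : ℝ) + 1 := by positivity
  have e6 : ((q : ℝ) + 1) * ‖v‖ ^ 4 ≤ ((p : ℝ) + 1) ^ 2 * ((‖v‖ ^ 2 + q * g) * ‖u‖ ^ 2) := by
    have c1 : ((q : ℝ) + 1) * ‖v‖ ^ 4 = ((p : ℝ) + 1) ^ 2 *
        (((q : ℝ) + 1) * (inner ℝ v u : ℝ) ^ 2) := by
      have : ‖v‖ ^ 4 = (‖v‖ ^ 2) ^ 2 := by ring
      rw [this, e4]
      ring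
    rw [c1]
    refine mul_le_mul_of_nonneg_left ?_ (by positivity)
    have c2 : ((q : ℝ) + 1) * (((q : ℝ) + 1) * (inner ℝ v u : ℝ) ^ 2) ≤
        ((q : ℝ) + 1) * ((‖v‖ ^ 2 + q * g) * ‖u‖ ^ 2) := by
      calc ((q : ℝ) + 1) * (((q : ℝ) + 1) * (inner ℝ v u : ℝ) ^ 2)
          = (((q : ℝ) + 1) * inner ℝ v u) ^ 2 := by ring
        _ ≤ _ := e5
        _ = _ := by ring
    exact le_of_mul_le_mul_left c2 hq0
  have e7 : ‖Up ρ x (p + 1) v‖ ^ 2 = ((p : ℝ) + 2) * (‖v‖ ^ 2 + ((p : ℝ) + 1) * g) := by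
    rw [e1]
    push_cast
    ring
  rw [e7]
  have hp2 : (0:ℝ) ≤ (p : ℝ) + 2 := by positivity
  calc ((p : ℝ) + 2) * (((q : ℝ) - (p + 1)) * (p + 1) * ‖v‖ ^ 2 * ‖u‖ ^ 2 + (q + 1) * ‖v‖ ^ 4)
      ≤ ((p : ℝ) + 2) * (((q : ℝ) - (p + 1)) * (p + 1) * ‖v‖ ^ 2 * ‖u‖ ^ 2 +
          ((p : ℝ) + 1) ^ 2 * ((‖v‖ ^ 2 + q * g) * ‖u‖ ^ 2)) := by
        refine mul_le_mul_of_nonneg_left ?_ hp2
        linarith
    _ = q * (p + 1) * (((p : ℝ) + 2) * (‖v‖ ^ 2 + ((p : ℝ) + 1) * g)) * ‖u‖ ^ 2 := by ring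

end Pool.Agent.H18.KC
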